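import Pool.Agent.N913.KU.U10
import Pool.Agent.N913.KS.S7
import Pool.Agent.N913.KT.T11

set_option autoImplicit false
set_option linter.unusedSectionVars false

/-! Concentration in a class for arbitrary finite sets of arguments, small sets included. -/

namespace Pool.Agent.N913.LN

open Finset Polynomial Filter
open Pool.Agent.N913.MT (th th_nonneg th_le tot_prod Wz Wz_le Wz_pos dvd_Wz evt_log_pow evt_log_ge)
open Pool.Agent.N913.KT (zK WK LK TK pol)
open Pool.Agent.N913.KS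
open Pool.Agent.N913.KU (classV)

theorem ev_cop_shift {r N : ℕ} (P : Fin r → ℤ[X]) (c : Fin r × Fin N → ℤ) (W : ℕ) (a : Fin r) (y s : ℤ) :
    (ev P c (a, y + W * s)).natAbs.Coprime W ↔ (ev P c (a, y)).natAbs.Coprime W := by
  apply Pool.Agent.N913.MG.cop_congr
  unfold ev
  simp only
  have h := (pol (P a) (blk c a)).sub_dvd_eval_sub (y + W * s) y
  refine dvd_trans ?_ h
  exact ⟨s, by ring⟩

theorem bc_congr {r : ℕ} (k : ℕ) (s t : ℕ → Fin r × ℤ) (h : ∀ i, (s i).1 = (t i).1) (a : Fin r) :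
    bc k s a = bc k t a := by
  unfold bc
  congr 1
  apply filter_congr
  intro i _
  rw [h i]

theorem cls (r k N d A C : ℕ) (hr : 1 ≤ r) (hk : 1 ≤ k) (hN : 2 ≤ N) (κ δ lam δ' : ℝ)
    (hκ0 : 0 < κ) (hκ1 : κ ≤ 1) (hδ : 0 < δ) (hδ1 : δ ≤ 1) (hlam : 0 < lam) (hδ0' : 0 < δ') (hδ1' : δ' ≤ 1)
    (K0 : ℕ) :
    ∃ Kc : ℝ, 0 < Kc ∧ ∀ c0 : ℝ, ∃ H0 : ℕ, ∀ H : ℕ, H0 ≤ H →
      (∃ η ξ : ℝ, Fk k (N + r + 2) (r * N) (2 * C + k + 3) d A κ η ξ δ' c0 H) ∧
      ∀ P : Fin r → ℤ[X], (∀ a, (P a).natDegree ≤ d) →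
      (∀ a i, |((P a).coeff i : ℝ)| ≤ H * Real.log H ^ A) →
      ∀ cs : Fin r × Fin N → ℤ, ∀ I : Finset ℕ, ∀ ps : ℕ → ℕ → Fin r × ℤ,
        (∀ n ∈ I, ∀ i < k, |(ps n i).2| ≤ TK C H) →
        (∀ n ∈ I, ∀ a, bc k (ps n) a + 1 ≤ N) →
        (∀ n ∈ I, ∀ i < k, ∀ j < k, i ≠ j → ps n i ≠ ps n j) →
        (∀ n ∈ I, ∀ i < k, (ev P cs (ps n i)).natAbs.Coprime (WK κ H)) →
        (∀ n ∈ I, (I.filter (fun n' => ∃ i < k, ∃ j < k, ps n i = ps n' j)).card ≤ K0) →
        (((Bx H (WK κ H) cs).filter (fun c => δ * (I.card * ((WK κ H : ℝ) / Nat.totient (WK κ H)) ^ k) +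
            4 * (Kc * Real.log H ^ k + 1) * ((WK κ H : ℝ) / Nat.totient (WK κ H)) ^ k <
          |∑ n ∈ I, Fw P (2 * TK (2 * C + k + 3) H) (ps n) k c -
            I.card * ((WK κ H : ℝ) / Nat.totient (WK κ H)) ^ k|)).card : ℝ) ≤
          lam * (Bx H (WK κ H) cs).card := by
  classical
  obtain ⟨E, hE⟩ : ∃ E, E = 2 * C + k + 3 := ⟨_, rfl⟩
  obtain ⟨Kc, hKc0, hKc⟩ := classV r k N d A E hr hk hN (by omega) κ δ lam δ' hκ0 hκ1 hδ hlam hδ0' hδ1'
    (K0 + k * k)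
  refine ⟨Kc, hKc0, fun c0 => ?_⟩
  obtain ⟨H0, hH0⟩ := hKc (max c0 (Kc + 6))
  refine ⟨H0, fun H hH => ?_⟩
  obtain ⟨⟨η, ξ, hF⟩, hcl⟩ := hH0 H hH
  rw [← hE]
  refine ⟨⟨η, ξ, { hF with lc := (le_max_left _ _).trans hF.lc }⟩, fun P hPd hP cs I ps hT hbc hd hcop hK => ?_⟩
  have hcl := hcl P hPd hP cs
  have hlc : Kc + 6 ≤ Real.log H := (le_max_right _ _).trans hF.lc
  obtain ⟨ℓ, hℓ⟩ : ∃ ℓ, ℓ = Real.log H := ⟨_, rfl⟩
  have LL := hF.L_ge
  have LU := hF.L_le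
  have hW2 := hF.W_le
  have hW1 := hF.W1
  rw [← hℓ] at hlc LL LU hW2 hcl ⊢
  obtain ⟨W, hW⟩ : ∃ W, W = WK κ H := ⟨_, rfl⟩
  rw [← hW] at hW2 hW1 hcl hcop ⊢
  obtain ⟨ω, hω⟩ : ∃ ω, ω = (W : ℝ) / Nat.totient W := ⟨_, rfl⟩
  rw [← hω] at hcl ⊢
  obtain ⟨T, hTd⟩ : ∃ T, T = TK C H := ⟨_, rfl⟩
  rw [← hTd] at hT
  have hℓ0 : 0 < ℓ := by linarith
  have hω1 : 1 ≤ ω := by
    have h1 : (0 : ℝ) < Nat.totient W := by exact_mod_cast Nat.totient_pos.2 hW1
    rw [hω, le_div_iff₀ h1, one_mul]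
    exact_mod_cast Nat.totient_le W
  have hωk : 1 ≤ ω ^ k := one_le_pow₀ hω1
  have hωk0 : 0 < ω ^ k := by linarith
  have hp1 : ∀ n : ℕ, 1 ≤ ℓ ^ n := fun n => one_le_pow₀ (by linarith)
  have hpm : ∀ m n : ℕ, m ≤ n → ℓ ^ m ≤ ℓ ^ n := fun m n h => pow_le_pow_right₀ (by linarith) h
  have hLsq : (LK H : ℝ) ≤ ℓ ^ 2 := by
    have := mul_le_mul_of_nonneg_right (show (2 : ℝ) ≤ ℓ by linarith) hℓ0.le
    rw [sq]; linarith
  have hLK0 : (0 : ℝ) ≤ LK H := Nat.cast_nonneg _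
  have hTle : (T : ℝ) ≤ ℓ ^ (2 * C) := by
    rw [hTd]
    unfold TK
    push_cast
    rw [pow_mul]
    exact pow_le_pow_left₀ hLK0 hLsq _
  have hEge : ℓ ^ E ≤ TK E H := by
    unfold TK
    push_cast
    exact pow_le_pow_left₀ hℓ0.le LL _
  have hTE : (T : ℝ) ≤ TK E H := hTle.trans ((hpm _ _ (by omega)).trans hEge)
  obtain ⟨B4, hB4⟩ : ∃ B4, B4 = 4 * (Kc * ℓ ^ k + 1) * ω ^ k := ⟨_, rfl⟩
  rw [← hB4]
  have hB40 : 0 ≤ B4 := by rw [hB4]; positivity
  have hS0 : ∀ c : Fin r × Fin N → ℤ, 0 ≤ ∑ n ∈ I, Fw P (2 * TK E H) (ps n) k c := fun c =>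
    sum_nonneg fun _ _ => Fw_nonneg _ _ _ _ _
  by_cases hbig : Kc * ℓ ^ k ≤ I.card
  · have h1 := hcl I ps hbig (fun n hn i hi => by
      have h2 : ((|(ps n i).2| : ℤ) : ℝ) ≤ ((TK E H : ℤ) : ℝ) := by
        have h3 : ((|(ps n i).2| : ℤ) : ℝ) ≤ ((T : ℤ) : ℝ) := by exact_mod_cast hT n hn i hi
        refine h3.trans ?_
        push_cast
        exact hTE
      exact_mod_cast h2) hbc hd hcop (fun n hn => (hK n hn).trans (Nat.le_add_right _ _))
    refine le_trans ?_ h1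
    have : (Bx H W cs).filter (fun c => δ * (I.card * ω ^ k) + B4 <
        |∑ n ∈ I, Fw P (2 * TK E H) (ps n) k c - I.card * ω ^ k|) ⊆
        (Bx H W cs).filter (fun c => δ * (I.card * ω ^ k) ≤
        |∑ n ∈ I, Fw P (2 * TK E H) (ps n) k c - I.card * ω ^ k|) := by
      intro c hc
      rw [mem_filter] at hc ⊢
      exact ⟨hc.1, by linarith [hc.2]⟩
    exact_mod_cast card_le_card this
  rcases I.eq_empty_or_nonempty with hI | ⟨n0, hn0⟩
  · have hem : (Bx H W cs).filter (fun c => δ * (I.card * ω ^ k) + B4 <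
        |∑ n ∈ I, Fw P (2 * TK E H) (ps n) k c - I.card * ω ^ k|) = ∅ := by
      rw [eq_empty_iff_forall_notMem]
      intro c hc
      rw [mem_filter, hI] at hc
      simp only [sum_empty, card_empty, Nat.cast_zero, zero_mul, mul_zero, sub_zero, abs_zero] at hc
      linarith [hc.2]
    rw [hem, card_empty, Nat.cast_zero]
    positivity
  -- a small set: add further arguments
  push Not at hbig
  obtain ⟨M, hM⟩ : ∃ M, M = ⌈Kc * ℓ ^ k⌉₊ := ⟨_, rfl⟩
  have hM1 : Kc * ℓ ^ k ≤ M := by rw [hM]; exact Nat.le_ceil _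
  have hM2 : (M : ℝ) ≤ Kc * ℓ ^ k + 1 := by rw [hM]; exact (Nat.ceil_lt_add_one (by positivity)).le
  obtain ⟨b, hb⟩ : ∃ b, b = I.sup id := ⟨_, rfl⟩
  have hIb : ∀ n ∈ I, n ≤ b := fun n hn => by rw [hb]; exact le_sup (f := id) hn
  obtain ⟨J, hJ⟩ : ∃ J, J = Ioc b (b + M) := ⟨_, rfl⟩
  have hJb : ∀ n ∈ J, b < n ∧ n ≤ b + M := fun n hn => by rw [hJ, mem_Ioc] at hn; exact hn
  have hdis : Disjoint I J := by
    rw [disjoint_left]
    intro n hn hn'
    have := hIb n hn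
    have := (hJb n hn').1
    omega
  obtain ⟨qs, hqs⟩ : ∃ qs : ℕ → ℕ → Fin r × ℤ, qs = fun n i => if n ≤ b then ps n i else
    ((ps n0 i).1, (ps n0 i).2 + W * (2 * T + (n - b : ℤ))) := ⟨_, rfl⟩
  have qI : ∀ n ∈ I, qs n = ps n := by
    intro n hn
    funext i
    rw [hqs]
    simp only
    rw [if_pos (hIb n hn)]
  have qJ : ∀ n ∈ J, ∀ i, qs n i = ((ps n0 i).1, (ps n0 i).2 + W * (2 * T + (n - b : ℤ))) := by
    intro n hn i
    rw [hqs]
    simp only
    rw [if_neg (not_le.2 (hJb n hn).1)]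
  have hW1z : (1 : ℤ) ≤ W := by exact_mod_cast hW1
  have hT0z : (0 : ℤ) ≤ T := Int.natCast_nonneg _
  have hlo : ∀ n ∈ J, ∀ i < k, (T : ℤ) < (qs n i).2 := by
    intro n hn i hi
    rw [qJ n hn i]
    simp only
    have h1 := (abs_le.1 (hT n0 hn0 i hi)).1
    have h2 : (1 : ℤ) ≤ (n - b : ℤ) := by
      have := (hJb n hn).1
      omega
    have h3 : (2 * T + 1 : ℤ) ≤ W * (2 * T + (n - b : ℤ)) := by nlinarith
    linarith
  have hcard : (I ∪ J).card = I.card + M := by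
    rw [card_union_of_disjoint hdis, hJ, Nat.card_Ioc]
    omega
  have h1 := hcl (I ∪ J) qs (by
    rw [hcard]
    push_cast
    have : (0 : ℝ) ≤ I.card := Nat.cast_nonneg _
    linarith) (by
    intro n hn i hi
    rw [mem_union] at hn
    rcases hn with hn | hn
    · rw [qI n hn]
      have h3 : ((|(ps n i).2| : ℤ) : ℝ) ≤ ((T : ℤ) : ℝ) := by exact_mod_cast hT n hn i hi
      have h2 : ((|(ps n i).2| : ℤ) : ℝ) ≤ ((TK E H : ℤ) : ℝ) := by
        refine h3.trans ?_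
        push_cast
        exact hTE
      exact_mod_cast h2
    · rw [qJ n hn i]
      simp only
      have h2 : |(ps n0 i).2 + W * (2 * T + (n - b : ℤ))| ≤ T + W * (2 * T + M) := by
        refine (abs_add_le _ _).trans (add_le_add (hT n0 hn0 i hi) ?_)
        have h4 : (n - b : ℤ) ≤ M := by have := (hJb n hn).2; omega
        have h5 : (0 : ℤ) ≤ (n - b : ℤ) := by have := (hJb n hn).1; omega
        rw [abs_of_nonneg (by positivity)]
        apply mul_le_mul_of_nonneg_left _ (by positivity)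
        linarith
      have h3 : ((T + W * (2 * T + M) : ℤ) : ℝ) ≤ ((TK E H : ℤ) : ℝ) := by
        push_cast
        refine le_trans ?_ hEge
        have e1 : ℓ ^ (2 * C) ≤ ℓ ^ (2 * C + k) := hpm _ _ (by omega)
        have e2 : ℓ ^ k ≤ ℓ ^ (2 * C + k) := hpm _ _ (by omega)
        have e3 := hp1 (2 * C + k)
        have e4 := hp1 2
        calc (T : ℝ) + W * (2 * T + M) ≤ ℓ ^ (2 * C + k) +
              ℓ ^ 2 * (2 * ℓ ^ (2 * C + k) + (Kc * ℓ ^ (2 * C + k) + ℓ ^ (2 * C + k))) := by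
              have i1 : (M : ℝ) ≤ Kc * ℓ ^ (2 * C + k) + ℓ ^ (2 * C + k) := by
                have := mul_le_mul_of_nonneg_left e2 hKc0.le
                linarith
              have i2 : (T : ℝ) ≤ ℓ ^ (2 * C + k) := hTle.trans e1
              gcongr
          _ ≤ ℓ ^ 2 * ℓ ^ (2 * C + k) + ℓ ^ 2 * (2 * ℓ ^ (2 * C + k) + (Kc * ℓ ^ (2 * C + k) + ℓ ^ (2 * C + k))) := by
              have := mul_le_mul_of_nonneg_right e4 (show 0 ≤ ℓ ^ (2 * C + k) by positivity)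
              linarith
          _ = (Kc + 4) * (ℓ ^ 2 * ℓ ^ (2 * C + k)) := by ring
          _ ≤ ℓ * (ℓ ^ 2 * ℓ ^ (2 * C + k)) := mul_le_mul_of_nonneg_right (by linarith) (by positivity)
          _ = ℓ ^ E := by
              rw [hE, show 2 * C + k + 3 = (2 * C + k) + 3 by ring, pow_add ℓ (2 * C + k) 3]
              ring
      have h4 : (T + W * (2 * T + M) : ℤ) ≤ TK E H := by exact_mod_cast h3
      exact h2.trans h4) (by
    intro n hn a
    rw [mem_union] at hn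
    rcases hn with hn | hn
    · rw [qI n hn]; exact hbc n hn a
    · rw [bc_congr k (qs n) (ps n0) (fun i => by rw [qJ n hn i])]
      exact hbc n0 hn0 a) (by
    intro n hn i hi j hj hij
    rw [mem_union] at hn
    rcases hn with hn | hn
    · rw [qI n hn]; exact hd n hn i hi j hj hij
    · rw [qJ n hn i, qJ n hn j]
      intro h
      rw [Prod.mk.injEq] at h
      exact hd n0 hn0 i hi j hj hij (Prod.ext h.1 (by linarith [h.2]))) (by
    intro n hn i hi
    rw [mem_union] at hn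
    rcases hn with hn | hn
    · rw [qI n hn]; exact hcop n hn i hi
    · rw [qJ n hn i]
      exact (ev_cop_shift P cs W _ _ _).2 (hcop n0 hn0 i hi)) (by
    intro n hn
    rw [mem_union] at hn
    rcases hn with hn | hn
    · refine le_trans (card_le_card ?_) ((hK n hn).trans (Nat.le_add_right _ _))
      intro n' hn'
      rw [mem_filter, mem_union] at hn'
      obtain ⟨h1, i, hi, j, hj, hij⟩ := hn'
      rcases h1 with h1 | h1
      · rw [mem_filter]
        rw [qI n hn, qI n' h1] at hij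
        exact ⟨h1, i, hi, j, hj, hij⟩
      · exfalso
        have h2 := hlo n' h1 j hj
        rw [← hij, qI n hn] at h2
        have h3 := (abs_le.1 (hT n hn i hi)).2
        linarith
    · refine le_trans ?_ (Nat.le_add_left (k * k) K0)
      have hsub : (I ∪ J).filter (fun n' => ∃ i < k, ∃ j < k, qs n i = qs n' j) ⊆
          (range k ×ˢ range k).biUnion (fun p => J.filter (fun n' => qs n p.1 = qs n' p.2)) := by
        intro n' hn'
        rw [mem_filter, mem_union] at hn'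
        obtain ⟨h1, i, hi, j, hj, hij⟩ := hn'
        rw [mem_biUnion]
        refine ⟨(i, j), mem_product.2 ⟨mem_range.2 hi, mem_range.2 hj⟩, ?_⟩
        rw [mem_filter]
        refine ⟨?_, hij⟩
        rcases h1 with h1 | h1
        · exfalso
          have h2 := hlo n hn i hi
          rw [hij, qI n' h1] at h2
          have h3 := (abs_le.1 (hT n' h1 j hj)).2
          linarith
        · exact h1
      refine (card_le_card hsub).trans (card_biUnion_le.trans ?_)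
      refine (sum_le_card_nsmul _ _ 1 (fun p _ => ?_)).trans (by
        rw [card_product, card_range, smul_eq_mul, mul_one])
      rw [card_le_one]
      intro a ha a' ha'
      rw [mem_filter] at ha ha'
      have h2 := ha.2.symm.trans ha'.2
      rw [qJ a ha.1, qJ a' ha'.1, Prod.mk.injEq] at h2
      have h3 : (W : ℤ) * (2 * T + (a - b : ℤ)) = W * (2 * T + (a' - b : ℤ)) := by linarith [h2.2]
      have h4 := mul_left_cancel₀ (show (W : ℤ) ≠ 0 by linarith) h3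
      have : (a : ℤ) = a' := by linarith
      exact_mod_cast this)
  refine le_trans ?_ h1
  have hsub : (Bx H W cs).filter (fun c => δ * (I.card * ω ^ k) + B4 <
      |∑ n ∈ I, Fw P (2 * TK E H) (ps n) k c - I.card * ω ^ k|) ⊆
      (Bx H W cs).filter (fun c => δ * ((I ∪ J).card * ω ^ k) ≤
      |∑ n ∈ I ∪ J, Fw P (2 * TK E H) (qs n) k c - (I ∪ J).card * ω ^ k|) := by
    intro c hc
    rw [mem_filter] at hc ⊢
    refine ⟨hc.1, ?_⟩
    by_contra hcon
    push Not at hcon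
    have hc2 := hc.2
    have hsum : ∑ n ∈ I, Fw P (2 * TK E H) (ps n) k c ≤ ∑ n ∈ I ∪ J, Fw P (2 * TK E H) (qs n) k c := by
      rw [sum_union hdis]
      have e1 : ∑ n ∈ I, Fw P (2 * TK E H) (ps n) k c = ∑ n ∈ I, Fw P (2 * TK E H) (qs n) k c :=
        sum_congr rfl fun n hn => by rw [qI n hn]
      rw [e1]
      have : 0 ≤ ∑ n ∈ J, Fw P (2 * TK E H) (qs n) k c := sum_nonneg fun _ _ => Fw_nonneg _ _ _ _ _
      linarith
    have h3 := (abs_lt.1 hcon).2
    rw [hcard] at h3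
    push_cast at h3
    have h4 : (I.card : ℝ) ≤ Kc * ℓ ^ k + 1 := by linarith
    have h5 := hS0 c
    have h6 : ((I.card : ℝ) + M) * ω ^ k ≤ (2 * (Kc * ℓ ^ k + 1)) * ω ^ k :=
      mul_le_mul_of_nonneg_right (by linarith) hωk0.le
    have h7 : (0 : ℝ) ≤ ((I.card : ℝ) + M) * ω ^ k := by positivity
    have h8 : δ * (((I.card : ℝ) + M) * ω ^ k) ≤ 1 * (((I.card : ℝ) + M) * ω ^ k) :=
      mul_le_mul_of_nonneg_right hδ1 h7
    have h9 : (I.card : ℝ) * ω ^ k ≤ (Kc * ℓ ^ k + 1) * ω ^ k := mul_le_mul_of_nonneg_right h4 hωk0.le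
    have h10 : 0 ≤ (I.card : ℝ) * ω ^ k := by positivity
    have h11 : 0 ≤ δ * ((I.card : ℝ) * ω ^ k) := by positivity
    have h12 : (0 : ℝ) ≤ (Kc * ℓ ^ k + 1) * ω ^ k := by positivity
    rw [lt_abs] at hc2
    rw [hB4] at hc2
    rcases hc2 with hc2 | hc2
    · linarith
    · linarith
  exact_mod_cast card_le_card hsub

end Pool.Agent.N913.LN
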