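import Pool.Agent.N913.LN.M0

set_option autoImplicit false
set_option linter.unusedSectionVars false

/-! Prime values at arbitrary finite sets of points. -/

namespace Pool.Agent.N913.LN

open Finset Polynomial Filter
open Pool.Agent.N913.MT (th th_nonneg th_le tot_prod Wz Wz_le Wz_pos dvd_Wz evt_log_pow evt_log_ge)
open Pool.Agent.N913.KT (zK WK LK TK pol exists_delta)
open Pool.Agent.N913.KS
open Pool.Agent.N913.KU (size_Y)

/-- the points -/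
noncomputable def qz {r k : ℕ} (a0 : Fin r) (α : Fin k → Fin r) (x : Fin k → ℕ → ℤ) (n i : ℕ) :
    Fin r × ℤ := if h : i < k then (α ⟨i, h⟩, x ⟨i, h⟩ n) else (a0, 0)

theorem qz_val {r k : ℕ} (a0 : Fin r) (α : Fin k → Fin r) (x : Fin k → ℕ → ℤ) (n : ℕ) (i : Fin k) :
    qz a0 α x n i = (α i, x i n) := by
  unfold qz
  rw [dif_pos i.2]

theorem ev_qz {r k N : ℕ} (a0 : Fin r) (α : Fin k → Fin r) (x : Fin k → ℕ → ℤ) (P : Fin r → ℤ[X])
    (c : Fin r × Fin N → ℤ) (n : ℕ) (i : Fin k) :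
    ev P c (qz a0 α x n i) = (pf P c (α i)).eval (x i n) := by
  rw [qz_val]
  rfl

theorem bc_qz {r k : ℕ} (a0 : Fin r) (α : Fin k → Fin r) (x : Fin k → ℕ → ℤ) (n : ℕ) (a : Fin r) :
    bc k (qz a0 α x n) a = (univ.filter (fun i => α i = a)).card := by
  unfold bc
  rw [card_filter, card_filter, ← Fin.sum_univ_eq_sum_range
    (fun i => if (qz a0 α x n i).1 = a then 1 else 0)]
  apply sum_congr rfl
  intro i _
  rw [qz_val]

theorem last2 (k : ℕ) (Q S m b ℓ ε δ δ' : ℝ) (hm : 0 ≤ m) (hb : 0 ≤ b) (hℓ : 0 < ℓ)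
    (hδ' : 0 < δ') (hδ'1 : δ' < 1) (hε1 : ε ≤ 1) (hδ : 0 ≤ δ) (h1 : Q * ((1 - δ') * ℓ) ^ k ≤ S)
    (h2 : S ≤ Q * ((1 + δ') * ℓ) ^ k)
    (h3 : |S - m| ≤ δ * m + b) (e1 : 1 + δ ≤ (1 + ε) * (1 - δ') ^ k)
    (e2 : (1 - ε) * (1 + δ') ^ k ≤ 1 - δ) :
    |Q - m / ℓ ^ k| ≤ (ε * m + 2 * b) / ℓ ^ k := by
  rw [abs_le] at h3
  have hℓk : 0 < ℓ ^ k := by positivity
  have hlo : 0 < (1 - δ') ^ k := pow_pos (by linarith) _
  have hhi : 0 < (1 + δ') ^ k := by positivity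
  have hhi1 : 1 ≤ (1 + δ') ^ k := one_le_pow₀ (by linarith)
  rw [mul_pow] at h1 h2
  have e3 : b ≤ ((1 + ε) * (1 - δ') ^ k) * b := by
    have : 1 ≤ (1 + ε) * (1 - δ') ^ k := by linarith
    have := mul_le_mul_of_nonneg_right this hb
    linarith
  have a1 : Q * ℓ ^ k * (1 - δ') ^ k ≤ ((1 + ε) * m + (1 + ε) * b) * (1 - δ') ^ k := by
    calc Q * ℓ ^ k * (1 - δ') ^ k = Q * ((1 - δ') ^ k * ℓ ^ k) := by ring
      _ ≤ (1 + δ) * m + b := by linarith [h3.2]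
      _ ≤ ((1 + ε) * (1 - δ') ^ k) * m + ((1 + ε) * (1 - δ') ^ k) * b :=
          add_le_add (mul_le_mul_of_nonneg_right e1 hm) e3
      _ = _ := by ring
  have a2 := le_of_mul_le_mul_right a1 hlo
  have a3 : ((1 - ε) * m - b) * (1 + δ') ^ k ≤ Q * ℓ ^ k * (1 + δ') ^ k := by
    have i1 : b ≤ b * (1 + δ') ^ k := by
      have := mul_le_mul_of_nonneg_left hhi1 hb
      linarith
    calc ((1 - ε) * m - b) * (1 + δ') ^ k = ((1 - ε) * (1 + δ') ^ k) * m - b * (1 + δ') ^ k := by ring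
      _ ≤ (1 - δ) * m - b := by
          have := mul_le_mul_of_nonneg_right e2 hm
          linarith
      _ ≤ S := by linarith [h3.1]
      _ ≤ Q * ((1 + δ') ^ k * ℓ ^ k) := h2
      _ = _ := by ring
  have a4 := le_of_mul_le_mul_right a3 hhi
  have e : Q - m / ℓ ^ k = (Q * ℓ ^ k - m) / ℓ ^ k := by field_simp
  rw [e, abs_div, abs_of_pos hℓk, div_le_div_iff_of_pos_right hℓk, abs_le]
  have hεb : ε * b ≤ 1 * b := mul_le_mul_of_nonneg_right hε1 hb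
  constructor
  · linarith
  · linarith

theorem convN {r k N : ℕ} (a0 : Fin r) (α : Fin k → Fin r) (x : Fin k → ℕ → ℤ) (P : Fin r → ℤ[X])
    (c : Fin r × Fin N → ℤ) (z T Y Z : ℕ) (ℓ δ' : ℝ) (Nn : Finset ℕ) (hz : z ≤ 2 * T)
    (hpos : ∀ n ∈ Nn, ∀ i < k, |(qz a0 α x n i).2| ≤ T)
    (hbig : ∀ t : Fin r × ℤ, |t.2| ≤ T → (Z : ℤ) < |ev P c t|)
    (hupp : ∀ t : Fin r × ℤ, |t.2| ≤ T → |ev P c t| ≤ Y)
    (hZR : 2 * T ≤ Z) (hlZ : (1 - δ') * ℓ ≤ Real.log ((Z : ℝ) + 1)) (hlY : Real.log Y ≤ (1 + δ') * ℓ)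
    (hℓ : 1 ≤ ℓ) (hδ'0 : 0 < δ') (hδ'1 : δ' < 1) :
    ((Nn.filter (fun n => ∀ i, ((pf P c (α i)).eval (x i n)).natAbs.Prime)).card : ℝ) *
        ((1 - δ') * ℓ) ^ k ≤
      ∑ n ∈ Nn.filter (fun n => ∀ i < k, (ev P c (qz a0 α x n i)).natAbs.Coprime (Wz z)),
        Fw P (2 * T) (qz a0 α x n) k c ∧
    ∑ n ∈ Nn.filter (fun n => ∀ i < k, (ev P c (qz a0 α x n i)).natAbs.Coprime (Wz z)),
        Fw P (2 * T) (qz a0 α x n) k c ≤
      ((Nn.filter (fun n => ∀ i, ((pf P c (α i)).eval (x i n)).natAbs.Prime)).card : ℝ) *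
        ((1 + δ') * ℓ) ^ k := by
  classical
  have hℓ0 : 0 < ℓ := by linarith
  -- values
  have hval : ∀ t : Fin r × ℤ, |t.2| ≤ T → 2 * T < (ev P c t).natAbs ∧
      (1 - δ') * ℓ ≤ Real.log ((ev P c t).natAbs : ℝ) ∧
      Real.log ((ev P c t).natAbs : ℝ) ≤ (1 + δ') * ℓ := by
    intro t ht
    have h1 := hbig t ht
    have h2 := hupp t ht
    rw [← Int.natCast_natAbs] at h1 h2
    have h3 : Z < (ev P c t).natAbs := by exact_mod_cast h1
    have h4 : (ev P c t).natAbs ≤ Y := by exact_mod_cast h2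
    refine ⟨by omega, hlZ.trans ?_, le_trans ?_ hlY⟩
    · apply Real.log_le_log (by positivity)
      exact_mod_cast h3
    · apply Real.log_le_log
      · exact_mod_cast (show 0 < (ev P c t).natAbs by omega)
      · exact_mod_cast h4
  obtain ⟨w, hw⟩ : ∃ w : ℕ → ℝ, w = fun n => Fw P (2 * T) (qz a0 α x n) k c := ⟨_, rfl⟩
  have hwlo : ∀ n ∈ Nn, (∀ i < k, (ev P c (qz a0 α x n i)).natAbs.Prime) →
      ((1 - δ') * ℓ) ^ k ≤ w n := by
    intro n hn hp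
    rw [hw]
    unfold Fw
    have h1 := prod_le_prod (s := range k) (f := fun _ => (1 - δ') * ℓ)
      (g := fun j => th (2 * T) (ev P c (qz a0 α x n j)).natAbs)
      (fun _ _ => mul_nonneg (by linarith) hℓ0.le) (fun j hj => by
        rw [mem_range] at hj
        obtain ⟨a1, a2, _⟩ := hval _ (hpos n hn j hj)
        unfold th
        rw [if_pos ⟨hp j hj, a1⟩]
        exact a2)
    rwa [prod_const, card_range] at h1
  have hwhi : ∀ n ∈ Nn, w n ≤ ((1 + δ') * ℓ) ^ k := by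
    intro n hn
    rw [hw]
    unfold Fw
    have h1 := prod_le_prod (s := range k)
      (f := fun j => th (2 * T) (ev P c (qz a0 α x n j)).natAbs) (g := fun _ => (1 + δ') * ℓ)
      (fun _ _ => th_nonneg _ _) (fun j hj => by
        rw [mem_range] at hj
        obtain ⟨_, _, a3⟩ := hval _ (hpos n hn j hj)
        unfold th
        split_ifs
        · exact a3
        · positivity)
    rwa [prod_const, card_range] at h1
  have hwz : ∀ n, ¬ (∀ i < k, (ev P c (qz a0 α x n i)).natAbs.Prime) → w n = 0 := by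
    intro n hn
    push Not at hn
    obtain ⟨i, hi, h⟩ := hn
    rw [hw]
    unfold Fw
    apply prod_eq_zero (mem_range.2 hi)
    unfold th
    rw [if_neg (fun h2 => h h2.1)]
  have hwc : ∀ n, ¬ (∀ i < k, (ev P c (qz a0 α x n i)).natAbs.Coprime (Wz z)) → w n = 0 := by
    intro n hn
    push Not at hn
    obtain ⟨i, hi, h⟩ := hn
    rw [hw]
    unfold Fw
    apply prod_eq_zero (mem_range.2 hi)
    unfold th
    rw [if_neg]
    intro h2
    apply h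
    refine (h2.1.coprime_iff_not_dvd).2 ?_
    intro h3
    have := (dvd_Wz z _ h2.1).1 h3
    omega
  have hQQ : Nn.filter (fun n => ∀ i, ((pf P c (α i)).eval (x i n)).natAbs.Prime) =
      Nn.filter (fun n => ∀ i < k, (ev P c (qz a0 α x n i)).natAbs.Prime) := by
    apply filter_congr
    intro n _
    constructor
    · intro h i hi
      have e := ev_qz a0 α x P c n ⟨i, hi⟩
      simp only at e
      rw [e]
      exact h ⟨i, hi⟩
    · intro h i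
      rw [← ev_qz a0 α x P c n i]
      exact h i i.2
  rw [hQQ]
  obtain ⟨S, hS⟩ : ∃ S, S = ∑ n ∈ Nn, w n := ⟨_, rfl⟩
  have hSQ : S = ∑ n ∈ Nn.filter (fun n => ∀ i < k, (ev P c (qz a0 α x n i)).natAbs.Prime), w n := by
    rw [hS, ← sum_filter_add_sum_filter_not Nn
      (fun n => ∀ i < k, (ev P c (qz a0 α x n i)).natAbs.Prime)]
    rw [sum_eq_zero (s := Nn.filter
      (fun n => ¬ ∀ i < k, (ev P c (qz a0 α x n i)).natAbs.Prime)) (fun n hn =>
        hwz n (mem_filter.1 hn).2), add_zero]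
  have hSC : ∑ n ∈ Nn.filter (fun n => ∀ i < k, (ev P c (qz a0 α x n i)).natAbs.Coprime (Wz z)),
      Fw P (2 * T) (qz a0 α x n) k c = S := by
    rw [hS, ← sum_filter_add_sum_filter_not Nn
      (fun n => ∀ i < k, (ev P c (qz a0 α x n i)).natAbs.Coprime (Wz z))]
    rw [sum_eq_zero (s := Nn.filter
      (fun n => ¬ ∀ i < k, (ev P c (qz a0 α x n i)).natAbs.Coprime (Wz z))) (fun n hn =>
        hwc n (mem_filter.1 hn).2), add_zero, hw]
  rw [hSC]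
  refine ⟨?_, ?_⟩
  · rw [hSQ, ← nsmul_eq_mul]
    exact card_nsmul_le_sum _ _ _ (fun n hn => hwlo n (mem_filter.1 hn).1 (mem_filter.1 hn).2)
  · rw [hSQ, ← nsmul_eq_mul]
    exact sum_le_card_nsmul _ _ _ (fun n hn => hwhi n (mem_filter.1 hn).1)

theorem mainN (r k N : ℕ) (hk : 1 ≤ k) (α : Fin k → Fin r)
    (hN : ∀ a, (univ.filter (fun i => α i = a)).card + 1 ≤ N) (d A C K0 : ℕ) (ε : ℝ) (hε0 : 0 < ε)
    (hε1 : ε ≤ 1) (κ : ℝ) (hκ0 : 0 < κ) (hκ : κ * (8 * k) ≤ ε) (μ : ℝ) (hμ : 0 < μ) :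
    ∃ H0 : ℕ, ∀ H : ℕ, H0 ≤ H → ∀ P : Fin r → ℤ[X], (∀ a, (P a).natDegree ≤ d) →
      (∀ a i, |((P a).coeff i : ℝ)| ≤ H * Real.log H ^ A) →
      ∀ (Nn : Finset ℕ) (x : Fin k → ℕ → ℤ), Real.log H ^ ((k : ℝ) + ε) ≤ Nn.card →
      (∀ n ∈ Nn, ∀ i, |(x i n : ℝ)| ≤ Real.log H ^ C) →
      (∀ n ∈ Nn, ∀ i j, i ≠ j → α i = α j → x i n ≠ x j n) →
      (∀ n ∈ Nn, (Nn.filter (fun n' => ∃ i j, α i = α j ∧ x i n = x j n')).card ≤ K0) →
      (((box r N H).filter (fun c =>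
        ε * (((Nn.filter (fun n => ∀ i, ((pf P c (α i)).eval (x i n)).natAbs.Coprime
          (Wz (zK κ H)))).card : ℝ) * ((Wz (zK κ H) : ℝ) / Nat.totient (Wz (zK κ H))) ^ k + Nn.card) /
            Real.log H ^ k <
          |((Nn.filter (fun n => ∀ i, ((pf P c (α i)).eval (x i n)).natAbs.Prime)).card : ℝ) -
            ((Nn.filter (fun n => ∀ i, ((pf P c (α i)).eval (x i n)).natAbs.Coprime
          (Wz (zK κ H)))).card : ℝ) * ((Wz (zK κ H) : ℝ) / Nat.totient (Wz (zK κ H))) ^ k /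
            Real.log H ^ k|)).card : ℝ) ≤ μ * H ^ (r * N) := by
  classical
  obtain ⟨a0, ha0⟩ : ∃ a0 : Fin r, a0 = α ⟨0, hk⟩ := ⟨_, rfl⟩
  have hr : 1 ≤ r := by
    have := a0.2
    omega
  have hk0 : (1 : ℝ) ≤ k := by exact_mod_cast hk
  have hN2 : 2 ≤ N := by
    have h1 := hN a0
    have h2 : 1 ≤ (univ.filter (fun i => α i = a0)).card := by
      apply card_pos.2
      exact ⟨⟨0, hk⟩, mem_filter.2 ⟨mem_univ _, ha0.symm⟩⟩
    omega
  have hN1 : 1 ≤ N := by omega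
  have hκ1 : κ ≤ 1 := by
    have : κ * 8 ≤ κ * (8 * k) := mul_le_mul_of_nonneg_left (by linarith) hκ0.le
    linarith
  obtain ⟨Nq, hNq⟩ : ∃ Nq, Nq = N + r + 2 := ⟨_, rfl⟩
  have hNN : N ≤ Nq := by omega
  obtain ⟨δ', hδ'0, hδ'1, he1, he2⟩ := exists_delta k ε hε0
  obtain ⟨δ, hδ⟩ : ∃ δ, δ = ε / 4 := ⟨_, rfl⟩
  have hδ0 : 0 < δ := by rw [hδ]; positivity
  obtain ⟨E, hE⟩ : ∃ E, E = 2 * C + k + 3 := ⟨_, rfl⟩
  obtain ⟨v, hv⟩ : ∃ v, v = r * N := ⟨_, rfl⟩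
  have hv1 : 1 ≤ v := by rw [hv]; exact Nat.mul_pos hr hN1
  obtain ⟨lam, hlam⟩ : ∃ lam : ℝ, lam = μ / (2 * 3 ^ v) := ⟨_, rfl⟩
  have hlam0 : 0 < lam := by rw [hlam]; positivity
  obtain ⟨Kc, hKc0, hKc⟩ := cls r k N d A C hr hk hN2 κ δ lam δ' hκ0 hκ1 hδ0
    (by rw [hδ]; linarith) hlam0 hδ'0 hδ'1.le K0
  rw [← hNq, ← hE] at hKc
  obtain ⟨Kx, hKx⟩ : ∃ Kx : ℝ, Kx = 8 * (Kc + 1) / ε := ⟨_, rfl⟩
  have hKx0 : 0 < Kx := by rw [hKx]; positivity
  obtain ⟨D', hD'⟩ : ∃ D', D' = 2 * E + 3 := ⟨_, rfl⟩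
  obtain ⟨H1, hH1⟩ := hKc (Kx ^ (2 / ε) + (2 * D' / δ') ^ 2 + 2 * (r * 3 ^ v) / μ + 1)
  obtain ⟨H2, hH2⟩ := eventually_atTop.1 ((evt_log_pow (1 / 8) (by norm_num) 2 (4 * E + 10)).and
    (eventually_ge_atTop 3))
  refine ⟨max H1 H2, fun H hH P hPd hP Nn x hx1 hx2 hxd hxK => ?_⟩
  obtain ⟨⟨η, ξ, hF⟩, hcl⟩ := hH1 H ((le_max_left _ _).trans hH)
  obtain ⟨g1, g2⟩ := hH2 H ((le_max_right _ _).trans hH)
  have hcl := hcl P hPd hP
  have hH3 : (3 : ℝ) ≤ H := by exact_mod_cast g2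
  have hH0 : (0 : ℝ) < H := by linarith
  obtain ⟨ℓ, hℓ⟩ : ∃ ℓ, ℓ = Real.log H := ⟨_, rfl⟩
  have l4 := hF.l4
  have lc := hF.lc
  have LL := hF.L_ge
  have hTl := hF.T_le
  have hYlog := hF.Ylog
  have hWr := hF.Wr
  rw [← hℓ] at g1 l4 lc LL hTl hYlog hWr hx1 hx2 hcl
  have hℓ0 : 0 < ℓ := by linarith
  have q1 : 0 ≤ Kx ^ (2 / ε) := Real.rpow_nonneg hKx0.le _
  have q2 : (0 : ℝ) ≤ (2 * D' / δ') ^ 2 := by positivity
  have q3 : (0 : ℝ) ≤ 2 * (r * 3 ^ v) / μ := by positivity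
  have lK : Kx ^ (2 / ε) ≤ ℓ := by linarith
  have lD : (2 * D' / δ') ^ 2 ≤ ℓ := by linarith
  have l9 : 2 * (r * 3 ^ v) / μ ≤ ℓ := by linarith
  have hp1 : ∀ n : ℕ, 1 ≤ ℓ ^ n := fun n => one_le_pow₀ (by linarith)
  have hpm : ∀ m n : ℕ, m ≤ n → ℓ ^ m ≤ ℓ ^ n := fun m n h => pow_le_pow_right₀ (by linarith) h
  have hHp : 2 * ℓ ^ (4 * E + 10) ≤ H := by
    refine g1.trans ?_
    calc (H : ℝ) ^ (1 / 8 : ℝ) ≤ (H : ℝ) ^ (1 : ℝ) :=
          Real.rpow_le_rpow_of_exponent_le (by linarith) (by norm_num)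
      _ = H := Real.rpow_one _
  have hT1 := hF.T1
  have hT1r : (1 : ℝ) ≤ TK E H := by exact_mod_cast hT1
  -- Z
  obtain ⟨Z, hZ⟩ : ∃ Z, Z = ⌊(H : ℝ) / ℓ ^ D'⌋₊ := ⟨_, rfl⟩
  have hDpos : 0 < ℓ ^ D' := by positivity
  have hZ1 : (Z : ℝ) ≤ H / ℓ ^ D' := by rw [hZ]; exact Nat.floor_le (by positivity)
  have hZ2 : (H : ℝ) / ℓ ^ D' < Z + 1 := by rw [hZ]; exact Nat.lt_floor_add_one _
  have hZR : 2 * TK E H ≤ Z := by
    rw [hZ]
    apply Nat.le_floor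
    rw [le_div_iff₀ hDpos]
    push_cast
    calc 2 * (TK E H : ℝ) * ℓ ^ D' ≤ ℓ ^ (2 * E + 1) * ℓ ^ D' :=
          mul_le_mul_of_nonneg_right (by linarith) hDpos.le
      _ = ℓ ^ (2 * E + 1 + D') := (pow_add ℓ (2 * E + 1) D').symm
      _ ≤ ℓ ^ (4 * E + 10) := hpm _ _ (by omega)
      _ ≤ H := by linarith [hp1 (4 * E + 10)]
  have hsqrt : Real.log ℓ ≤ 2 * Real.sqrt ℓ := by
    have h1 : Real.log (Real.sqrt ℓ) = Real.log ℓ / 2 := Real.log_sqrt hℓ0.le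
    have h2 := Real.log_le_sub_one_of_pos (Real.sqrt_pos.2 hℓ0)
    linarith
  have hlZ : (1 - δ') * ℓ ≤ Real.log ((Z : ℝ) + 1) := by
    have h1 : Real.log ((H : ℝ) / ℓ ^ D') ≤ Real.log ((Z : ℝ) + 1) :=
      Real.log_le_log (by positivity) hZ2.le
    rw [Real.log_div hH0.ne' (by positivity), Real.log_pow, ← hℓ] at h1
    have h2 : 2 * (D' : ℝ) / δ' ≤ Real.sqrt ℓ := Real.le_sqrt_of_sq_le lD
    have h3 : 2 * (D' : ℝ) ≤ δ' * Real.sqrt ℓ := by
      rw [div_le_iff₀ hδ'0] at h2; linarith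
    have h4 : (D' : ℝ) * Real.log ℓ ≤ D' * (2 * Real.sqrt ℓ) :=
      mul_le_mul_of_nonneg_left hsqrt (Nat.cast_nonneg _)
    have h5 : (D' : ℝ) * (2 * Real.sqrt ℓ) ≤ δ' * Real.sqrt ℓ * Real.sqrt ℓ := by
      have := mul_le_mul_of_nonneg_right h3 (Real.sqrt_nonneg ℓ)
      linarith
    have h6 : δ' * Real.sqrt ℓ * Real.sqrt ℓ = δ' * ℓ := by
      rw [mul_assoc, Real.mul_self_sqrt hℓ0.le]
    linarith
  -- positions
  have hLK0 : (0 : ℝ) ≤ LK H := Nat.cast_nonneg _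
  have hposC : ∀ n ∈ Nn, ∀ i < k, |(qz a0 α x n i).2| ≤ TK C H := by
    intro n hn i hi
    have h2 := hx2 n hn ⟨i, hi⟩
    have e := qz_val a0 α x n ⟨i, hi⟩
    simp only at e
    rw [e]
    simp only
    have h3 : |(x ⟨i, hi⟩ n : ℝ)| ≤ TK C H := by
      refine h2.trans ?_
      unfold TK
      push_cast
      exact pow_le_pow_left₀ hℓ0.le LL _
    have h4 : ((|x ⟨i, hi⟩ n| : ℤ) : ℝ) ≤ ((TK C H : ℤ) : ℝ) := by push_cast; exact h3
    exact_mod_cast h4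
  have hTCE : TK C H ≤ TK E H := by
    unfold TK
    apply Nat.pow_le_pow_right
    · have : (1 : ℝ) ≤ LK H := by linarith
      exact_mod_cast this
    · omega
  have hpos : ∀ n ∈ Nn, ∀ i < k, |(qz a0 α x n i).2| ≤ TK E H := by
    intro n hn i hi
    exact (hposC n hn i hi).trans (by exact_mod_cast hTCE)
  -- size
  have hupp : ∀ c ∈ box r N H, ∀ t : Fin r × ℤ, |t.2| ≤ TK E H → |ev P c t| ≤ YK Nq E d A H := by
    intro c hc t ht
    unfold Pool.Agent.N913.KS.box at hc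
    rw [Fintype.mem_piFinset] at hc
    have h1 := size_Y hNN hF P hPd hP c (fun i => by
      have h2 := abs_le.2 (mem_Icc.1 (hc i))
      have h3 : (0 : ℤ) ≤ SK k Nq (r * N) E κ H := Int.natCast_nonneg _
      linarith) t ht
    have h2 : (0 : ℤ) ≤ ((WK κ H * (2 * TK E H) ^ N * UK k Nq (r * N) E H : ℕ) : ℤ) :=
      Int.natCast_nonneg _
    linarith
  obtain ⟨ω, hω⟩ : ∃ ω, ω = (Wz (zK κ H) : ℝ) / Nat.totient (Wz (zK κ H)) := ⟨_, rfl⟩
  have hWW : (Wz (zK κ H) : ℝ) = WK κ H := rfl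
  have hW1 := hF.W1
  have hω1 : 1 ≤ ω := by
    have h1 : (0 : ℝ) < Nat.totient (Wz (zK κ H)) := by exact_mod_cast Nat.totient_pos.2 hW1
    rw [hω, le_div_iff₀ h1, one_mul]
    exact_mod_cast Nat.totient_le _
  have hωW : ω ≤ ℓ ^ (2 * κ) := by
    refine le_trans ?_ hWr
    rw [hω]
    apply div_le_self (Nat.cast_nonneg _)
    have : 1 ≤ Nat.totient (Wz (zK κ H)) := Nat.totient_pos.2 hW1
    exact_mod_cast this
  have hωk : ω ^ k ≤ ℓ ^ (ε / 4) := by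
    calc ω ^ k ≤ (ℓ ^ (2 * κ)) ^ k := pow_le_pow_left₀ (by linarith) hωW k
      _ = ℓ ^ (2 * κ * k) := by rw [← Real.rpow_natCast, ← Real.rpow_mul hℓ0.le]
      _ ≤ ℓ ^ (ε / 4) := by
          apply Real.rpow_le_rpow_of_exponent_le (by linarith)
          linarith
  have hωk1 : 1 ≤ ω ^ k := one_le_pow₀ hω1
  obtain ⟨b, hb⟩ : ∃ b, b = 4 * (Kc * ℓ ^ k + 1) * ω ^ k := ⟨_, rfl⟩
  have hb0 : 0 ≤ b := by rw [hb]; positivity
  have hbN : 2 * b ≤ ε * Nn.card := by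
    have h1 : Kx ≤ ℓ ^ (ε / 2) := by
      have h2 : (Kx ^ (2 / ε)) ^ (ε / 2) = Kx := by
        rw [← Real.rpow_mul hKx0.le]
        have : 2 / ε * (ε / 2) = 1 := by field_simp
        rw [this, Real.rpow_one]
      calc Kx = (Kx ^ (2 / ε)) ^ (ε / 2) := h2.symm
        _ ≤ ℓ ^ (ε / 2) := Real.rpow_le_rpow q1 lK (by positivity)
    have hℓk := hp1 k
    have h3 : 2 * b ≤ ε * (Kx * ℓ ^ k * ω ^ k) := by
      rw [hb, hKx]
      have e : ε * (8 * (Kc + 1) / ε * ℓ ^ k * ω ^ k) = 8 * ((Kc + 1) * ℓ ^ k) * ω ^ k := by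
        field_simp
      rw [e]
      have : 2 * (4 * (Kc * ℓ ^ k + 1) * ω ^ k) = 8 * (Kc * ℓ ^ k + 1) * ω ^ k := by ring
      rw [this]
      apply mul_le_mul_of_nonneg_right _ (by positivity)
      linarith
    refine h3.trans ?_
    apply mul_le_mul_of_nonneg_left _ hε0.le
    refine le_trans ?_ hx1
    calc Kx * ℓ ^ k * ω ^ k ≤ ℓ ^ (ε / 2) * ℓ ^ k * ℓ ^ (ε / 4) := by gcongr
      _ = ℓ ^ ((k : ℝ) + (ε / 2 + ε / 4)) := by
          rw [← Real.rpow_natCast ℓ k, ← Real.rpow_add hℓ0, ← Real.rpow_add hℓ0]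
          congr 1
          ring
      _ ≤ ℓ ^ ((k : ℝ) + ε) := by
          apply Real.rpow_le_rpow_of_exponent_le (by linarith)
          linarith
  -- coprimality
  have hcopeq : ∀ c : Fin r × Fin N → ℤ, Nn.filter (fun n => ∀ i, ((pf P c (α i)).eval (x i n)).natAbs.Coprime
      (Wz (zK κ H))) = Nn.filter (fun n => ∀ i < k, (ev P c (qz a0 α x n i)).natAbs.Coprime
      (Wz (zK κ H))) := by
    intro c
    apply filter_congr
    intro n _
    constructor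
    · intro h i hi
      have e := ev_qz a0 α x P c n ⟨i, hi⟩
      simp only at e
      rw [e]
      exact h ⟨i, hi⟩
    · intro h i
      rw [← ev_qz a0 α x P c n i]
      exact h i i.2
  obtain ⟨Q, hQ⟩ : ∃ Q : (Fin r × Fin N → ℤ) → ℕ, Q = fun c =>
    (Nn.filter (fun n => ∀ i, ((pf P c (α i)).eval (x i n)).natAbs.Prime)).card := ⟨_, rfl⟩
  obtain ⟨I, hI⟩ : ∃ I : (Fin r × Fin N → ℤ) → Finset ℕ, I = fun c =>
    Nn.filter (fun n => ∀ i < k, (ev P c (qz a0 α x n i)).natAbs.Coprime (Wz (zK κ H))) := ⟨_, rfl⟩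
  -- the exceptional set
  rw [← hℓ, ← hv]
  obtain ⟨Bd, hBd⟩ : ∃ Bd, Bd = (box r N H).filter (fun c =>
        ε * (((I c).card : ℝ) * ω ^ k + Nn.card) / ℓ ^ k <
          |(Q c : ℝ) - ((I c).card : ℝ) * ω ^ k / ℓ ^ k|) := ⟨_, rfl⟩
  have hgoal : (box r N H).filter (fun c =>
        ε * (((Nn.filter (fun n => ∀ i, ((pf P c (α i)).eval (x i n)).natAbs.Coprime
          (Wz (zK κ H)))).card : ℝ) * ((Wz (zK κ H) : ℝ) / Nat.totient (Wz (zK κ H))) ^ k + Nn.card) /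
            ℓ ^ k <
          |((Nn.filter (fun n => ∀ i, ((pf P c (α i)).eval (x i n)).natAbs.Prime)).card : ℝ) -
            ((Nn.filter (fun n => ∀ i, ((pf P c (α i)).eval (x i n)).natAbs.Coprime
          (Wz (zK κ H)))).card : ℝ) * ((Wz (zK κ H) : ℝ) / Nat.totient (Wz (zK κ H))) ^ k /
            ℓ ^ k|) = Bd := by
    rw [hBd]
    apply filter_congr
    intro c _
    rw [hcopeq c, hI, hQ, hω]
  rw [hgoal]
  -- good vectors
  have hgood : ∀ c ∈ box r N H, (¬ ∃ t : Fin r × ℤ, |t.2| ≤ TK E H ∧ |ev P c t| ≤ Z) →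
      |∑ n ∈ I c, Fw P (2 * TK E H) (qz a0 α x n) k c - (I c).card * ω ^ k| ≤
        δ * ((I c).card * ω ^ k) + b →
      |(Q c : ℝ) - ((I c).card : ℝ) * ω ^ k / ℓ ^ k| ≤
        ε * (((I c).card : ℝ) * ω ^ k + Nn.card) / ℓ ^ k := by
    intro c hc hsm hconc
    push Not at hsm
    obtain ⟨s1, s2⟩ := convN a0 α x P c (zK κ H) (TK E H) (YK Nq E d A H) Z ℓ δ' Nn
      hF.zT hpos (fun t ht => hsm t ht) (hupp c hc) hZR hlZ hYlog (by linarith) hδ'0 hδ'1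
    have h1 := last2 k (Q c) (∑ n ∈ I c, Fw P (2 * TK E H) (qz a0 α x n) k c)
      (((I c).card : ℝ) * ω ^ k) b ℓ ε δ δ' (by positivity) hb0 hℓ0 hδ'0 hδ'1 hε1 hδ0.le
      (by rw [hQ, hI]; exact s1) (by rw [hQ, hI]; exact s2) hconc (by rw [hδ]; exact he1) (by rw [hδ]; exact he2)
    refine h1.trans ?_
    apply div_le_div_of_nonneg_right _ (by positivity)
    linarith
  obtain ⟨E0, hE0⟩ : ∃ E0, E0 = (box r N H).filter
    (fun c => ∃ t : Fin r × ℤ, |t.2| ≤ TK E H ∧ |ev P c t| ≤ Z) := ⟨_, rfl⟩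
  have hsplit : Bd ⊆ E0 ∪ Bd.filter (fun c => c ∉ E0) := by
    intro c hc
    rw [mem_union]
    by_cases h : c ∈ E0
    · exact Or.inl h
    · exact Or.inr (mem_filter.2 ⟨hc, h⟩)
  have hcard0 : (Bd.card : ℝ) ≤ E0.card + (Bd.filter (fun c => c ∉ E0)).card := by
    exact_mod_cast (card_le_card hsplit).trans (card_union_le _ _)
  have hE0card : (E0.card : ℝ) ≤ μ / 2 * H ^ v := by
    have h1 : E0.card ≤ r * (2 * TK E H + 1) * ((2 * Z + 1) * (2 * H + 1) ^ (v - 1)) := by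
      rw [hE0, hv]
      convert small_all (r := r) hN1 P H Z (TK E H) using 2
    have h2 : (E0.card : ℝ) ≤ r * (2 * TK E H + 1) * ((2 * Z + 1) * (2 * H + 1) ^ (v - 1)) := by
      exact_mod_cast h1
    refine h2.trans ?_
    have h3 : (2 * (Z : ℝ) + 1) ≤ 3 * (H / ℓ ^ D') := by
      have : 1 ≤ (H : ℝ) / ℓ ^ D' := by
        rw [le_div_iff₀ hDpos, one_mul]
        have := hpm D' (4 * E + 10) (by omega)
        linarith [hp1 (4 * E + 10)]
      linarith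
    have h4 : ((2 : ℝ) * H + 1) ^ (v - 1) ≤ (3 * H) ^ (v - 1) :=
      pow_le_pow_left₀ (by positivity) (by linarith) _
    calc r * (2 * (TK E H : ℝ) + 1) * ((2 * Z + 1) * (2 * H + 1) ^ (v - 1)) ≤
          r * ℓ ^ (2 * E + 1) * (3 * (H / ℓ ^ D') * (3 * H) ^ (v - 1)) := by gcongr
      _ = r * ((3 * H) ^ (v - 1) * (3 * H)) * (ℓ ^ (2 * E + 1) / ℓ ^ D') := by ring
      _ = (r * 3 ^ v * H ^ v) * (1 / ℓ ^ 2) := by
          rw [← pow_succ, show v - 1 + 1 = v by omega, mul_pow]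
          have e : ℓ ^ D' = ℓ ^ (2 * E + 1) * ℓ ^ 2 := by
            rw [hD', ← pow_add]
          have e2 : ℓ ^ (2 * E + 1) / ℓ ^ D' = 1 / ℓ ^ 2 := by rw [e]; field_simp
          rw [e2]
          ring
      _ ≤ μ / 2 * H ^ v := by
          rw [mul_one_div, div_le_iff₀ (by positivity)]
          rw [div_le_iff₀ hμ] at l9
          have h5 : ℓ ≤ ℓ ^ 2 := by
            calc ℓ = ℓ ^ 1 := (pow_one ℓ).symm
              _ ≤ _ := hpm 1 2 (by norm_num)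
          have h6 : r * 3 ^ v ≤ μ / 2 * ℓ ^ 2 := by
            have := mul_le_mul_of_nonneg_left h5 hμ.le
            linarith
          have h7 := mul_le_mul_of_nonneg_right h6 (show (0 : ℝ) ≤ H ^ v by positivity)
          linarith
  have hpart := part H (WK κ H) hF.W1 (Bd.filter (fun c => c ∉ E0)) lam (by
    intro cs
    have hmem : ∀ c ∈ (Bd.filter (fun c => c ∉ E0)).filter (fun c => rs (WK κ H) c = cs),
        c ∈ box r N H ∧ (¬ ∃ t : Fin r × ℤ, |t.2| ≤ TK E H ∧ |ev P c t| ≤ Z) ∧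
        c ∈ Bx H (WK κ H) cs ∧ I c = I cs ∧
        ε * (((I c).card : ℝ) * ω ^ k + Nn.card) / ℓ ^ k <
          |(Q c : ℝ) - ((I c).card : ℝ) * ω ^ k / ℓ ^ k| := by
      intro c hc
      rw [mem_filter, mem_filter, hBd, mem_filter] at hc
      obtain ⟨⟨⟨c1, c2⟩, c3⟩, c4⟩ := hc
      have c5 : ∀ i, ((WK κ H : ℕ) : ℤ) ∣ c i - cs i := by
        intro i
        have : c i % (WK κ H : ℕ) = cs i := congrFun c4 i
        rw [← this]
        exact Int.dvd_self_sub_emod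
      refine ⟨c1, ?_, ?_, ?_, c2⟩
      · intro h
        apply c3
        rw [hE0, mem_filter]
        exact ⟨c1, h⟩
      · rw [mem_Bx]
        intro i
        unfold Pool.Agent.N913.KS.box at c1
        rw [Fintype.mem_piFinset] at c1
        exact ⟨abs_le.2 (mem_Icc.1 (c1 i)), c5 i⟩
      · rw [hI]
        simp only
        apply filter_congr
        intro n _
        apply forall₂_congr
        intro i _
        exact ev_cop P c cs (WK κ H) c5 (qz a0 α x n i)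
    have hIsub : ∀ n ∈ I cs, n ∈ Nn ∧ ∀ i < k, (ev P cs (qz a0 α x n i)).natAbs.Coprime (WK κ H) := by
      intro n hn
      rw [hI] at hn
      exact mem_filter.1 hn
    have h1 := hcl cs (I cs) (qz a0 α x) (fun n hn i hi => hposC n (hIsub n hn).1 i hi)
      (fun n _ a => by rw [bc_qz]; exact hN a) (by
        intro n hn i hi j hj hij heq
        have e1 := qz_val a0 α x n ⟨i, hi⟩
        have e2 := qz_val a0 α x n ⟨j, hj⟩
        simp only at e1 e2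
        rw [e1, e2, Prod.mk.injEq] at heq
        exact hxd n (hIsub n hn).1 ⟨i, hi⟩ ⟨j, hj⟩ (by
          intro h
          apply hij
          exact congrArg Fin.val h) heq.1 heq.2) (fun n hn => (hIsub n hn).2) (by
        intro n hn
        refine le_trans (card_le_card ?_) (hxK n (hIsub n hn).1)
        intro n' hn'
        rw [mem_filter] at hn' ⊢
        obtain ⟨h1, i, hi, j, hj, hij⟩ := hn'
        have e1 := qz_val a0 α x n ⟨i, hi⟩
        have e2 := qz_val a0 α x n' ⟨j, hj⟩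
        simp only at e1 e2
        rw [e1, e2, Prod.mk.injEq] at hij
        exact ⟨(hIsub n' h1).1, ⟨i, hi⟩, ⟨j, hj⟩, hij.1, hij.2⟩)
    refine le_trans ?_ h1
    have hsub : (Bd.filter (fun c => c ∉ E0)).filter (fun c => rs (WK κ H) c = cs) ⊆
        (Bx H (WK κ H) cs).filter (fun c => δ * ((I cs).card *
          ((WK κ H : ℝ) / Nat.totient (WK κ H)) ^ k) +
            4 * (Kc * ℓ ^ k + 1) * ((WK κ H : ℝ) / Nat.totient (WK κ H)) ^ k <
        |∑ n ∈ I cs, Fw P (2 * TK E H) (qz a0 α x n) k c -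
          (I cs).card * ((WK κ H : ℝ) / Nat.totient (WK κ H)) ^ k|) := by
      intro c hc
      obtain ⟨c1, c2, c3, c4, c5⟩ := hmem c hc
      rw [mem_filter]
      refine ⟨c3, ?_⟩
      by_contra hcon
      push Not at hcon
      have h2 := hgood c c1 c2 (by
        rw [c4, hb, hω]
        exact hcon)
      linarith
    exact_mod_cast card_le_card hsub)
  rw [← hv] at hpart
  have h9 : lam * (2 * (H : ℝ) + 1) ^ v ≤ μ / 2 * H ^ v := by
    have h1 : (2 * (H : ℝ) + 1) ^ v ≤ (3 * H) ^ v :=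
      pow_le_pow_left₀ (by positivity) (by linarith) _
    calc lam * (2 * (H : ℝ) + 1) ^ v ≤ lam * (3 * H) ^ v :=
          mul_le_mul_of_nonneg_left h1 hlam0.le
      _ = μ / 2 * H ^ v := by
          rw [hlam, mul_pow]
          field_simp
  linarith

end Pool.Agent.N913.LN
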